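import Mathlib
import Pool.Agent.Work.MP_671ba1_h57.Family

/-!
# Closed 4-manifolds, symplectic 6-manifolds, complete intersections: definitions

`Man n`: closed simply connected smooth `n`-manifolds; `Sym6`: closed simply connected symplectic
6-manifolds with integral symplectic form; `IsCI`: complete intersection surfaces; `IsCI3`: complete
intersection threefolds with a multiple of the Fubini-Study form.
-/

open scoped Manifold ContDiff Topology LinearAlgebra.Projectivization
open CategoryTheory

namespace Pool.Agent.Work.MP_671ba1_h15

/-- the euclidean space of dimension `n` -/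
abbrev E (n : ℕ) : Type := EuclideanSpace ℝ (Fin n)

/-- A closed (compact, without boundary) simply connected smooth `n`-manifold. -/
structure Man (n : ℕ) : Type 1 where
  /-- the points -/
  carrier : Type
  [top : TopologicalSpace carrier]
  [charted : ChartedSpace (E n) carrier]
  [smooth : IsManifold (𝓡 n) ∞ carrier]
  [haus : T2Space carrier]
  [comp : CompactSpace carrier]
  [simp : SimplyConnectedSpace carrier]

attribute [instance] Man.top Man.charted Man.smooth Man.haus Man.comp Man.simp

/-- the diffeomorphisms of `X` and `Y` -/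
abbrev Dif (X Y : Man 4) : Type := X.carrier ≃ₘ⟮𝓡 4, 𝓡 4⟯ Y.carrier

/-- `X` and `Y` are diffeomorphic. -/
def Diffeo (X Y : Man 4) : Prop := Nonempty (Dif X Y)

/-- `X` and `Y` are homeomorphic. -/
def Homeo (X Y : Man 4) : Prop := Nonempty (X.carrier ≃ₜ Y.carrier)

/-- the singular homology functor `H_2( · ; ℤ)` -/
noncomputable def sing : TopCat.{0} ⥤ ModuleCat.{0} ℤ :=
  (AlgebraicTopology.singularHomologyFunctor (ModuleCat.{0} ℤ) 2).obj (ModuleCat.of ℤ ℤ)

/-- the singular homology group `H_2(X; ℤ)` -/
noncomputable abbrev H2 (X : Man 4) : Type := sing.obj (TopCat.of X.carrier)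

/-- the cohomology group `Hom(H_2(X; ℤ), ℤ)` (which is `H²(X; ℤ)`, `X` is simply connected) -/
noncomputable abbrev Coh (X : Man 4) : Type := H2 X →ₗ[ℤ] ℤ

/-- the pull back of the class `c` by the diffeomorphism `φ` -/
noncomputable def pull {X Y : Man 4} (φ : Dif X Y) (c : Coh Y) : Coh X :=
  c ∘ₗ (sing.map (TopCat.ofHom ⟨φ, φ.continuous⟩)).hom

section Form

variable {n m : ℕ} (M : Man n)

/-- the target of the preferred chart at `p₀`, an open set of the euclidean space -/
def dom (p₀ : M.carrier) : Set (E n) := (extChartAt (𝓡 n) p₀).target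

/-- the preferred chart at `p₀` -/
noncomputable def chart (p₀ : M.carrier) : M.carrier → E n := extChartAt (𝓡 n) p₀

/-- the inverse of the preferred chart at `p₀` -/
noncomputable def inv (p₀ : M.carrier) : E n → M.carrier := (extChartAt (𝓡 n) p₀).symm

/-- the `i`-th partial derivative at `y` of the smooth map `g` to the manifold, a tangent vector at
`g y`: the tangent space at `p` is identified with the model space by the preferred chart at `p` -/
noncomputable def pd (g : E m → M.carrier) (y : E m) (i : Fin m) : E n :=
  lineDeriv ℝ (fun z => chart M (g y) (g z)) y (EuclideanSpace.single i 1)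

/-- a bilinear form on each tangent space (see `pd`) -/
abbrev Forms : Type := M.carrier → LinearMap.BilinForm ℝ (E n)

variable {M}

/-- the pull back of the form by the map `g` of the euclidean space: coefficients -/
noncomputable def coef (Ω : Forms M) (g : E m → M.carrier) (i j : Fin m) (y : E m) : ℝ :=
  Ω (g y) (pd M g y i) (pd M g y j)

/-- the partial derivative of the `i, j` coefficient in the chart at `p₀` in the direction `k` -/
noncomputable def dcoef (Ω : Forms M) (p₀ : M.carrier) (y : E n) (i j k : Fin n) : ℝ :=
  lineDeriv ℝ (coef Ω (inv M p₀) i j) y (EuclideanSpace.single k 1)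

/-- `Ω` is alternating and nondegenerate. -/
def Nondeg (Ω : Forms M) : Prop :=
  (∀ p v, Ω p v v = 0) ∧ ∀ p v, v ≠ 0 → ∃ w, Ω p v w ≠ 0

/-- `Ω` is smooth (in all charts). -/
def Smooth (Ω : Forms M) : Prop :=
  ∀ p₀ i j, ContDiffOn ℝ ∞ (coef Ω (inv M p₀) i j) (dom M p₀)

/-- `Ω` is closed (in all charts). -/
def Closed (Ω : Forms M) : Prop :=
  ∀ p₀, ∀ y ∈ dom M p₀, ∀ i j k, dcoef Ω p₀ y i j k + dcoef Ω p₀ y j k i + dcoef Ω p₀ y k i j = 0

/-- `g` is a smooth 2-sphere in `M`: a smooth map of the plane, constant outside a compact set. -/
def Sphere (g : E 2 → M.carrier) : Prop :=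
  ContMDiff (𝓡 2) (𝓡 n) ∞ g ∧ ∃ (p : M.carrier) (R : ℝ), ∀ x, R ≤ ‖x‖ → g x = p

/-- the integral of the form over the 2-sphere `g` -/
noncomputable def area (Ω : Forms M) (g : E 2 → M.carrier) : ℝ := ∫ x, coef Ω g 0 1 x

end Form

/-- A closed simply connected smooth 6-manifold with a symplectic form (a smooth field of alternating
nondegenerate bilinear forms, closed in all charts) which is integral (its integral over every
2-sphere is an integer; for a simply connected manifold these are all classes of `H_2`). -/
structure Sym6 : Type 1 where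
  /-- the manifold -/
  man : Man 6
  /-- the symplectic form -/
  form : Forms man
  nondeg : Nondeg form
  smooth : Smooth form
  closed : Closed form
  integral : ∀ g, Sphere g → ∃ n : ℤ, area form g = n

section CI

/-- the complex vector space of dimension `N` -/
abbrev V (N : ℕ) : Type := Fin N → ℂ

/-- the projective space of `V N` -/
abbrev PP (N : ℕ) : Type := ℙ ℂ (V N)

variable {n N : ℕ} {M : Man n}

/-- `s` is a smooth lift at `x₀` of the map `p` to the projective space. -/
def IsLift (p : M.carrier → PP N) (x₀ : M.carrier) (s : M.carrier → V N) : Prop :=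
  ContMDiffAt (𝓡 n) 𝓘(ℝ, V N) ∞ s x₀ ∧
    ∀ᶠ x in 𝓝 x₀, ∃ h : s x ≠ 0, p x = Projectivization.mk ℂ (s x) h

/-- the derivative of the smooth function `s` at `x₀` in the direction of the tangent vector `v` (see
`pd`) -/
noncomputable def der (s : M.carrier → V N) (x₀ : M.carrier) (v : E n) : V N :=
  lineDeriv ℝ (fun y => s (inv M x₀ y)) (chart M x₀ x₀) v

/-- `z` is a common zero of the polynomials `P i`. -/
def Zero {r : ℕ} (P : Fin r → MvPolynomial (Fin N) ℂ) (z : V N) : Prop :=
  ∀ i, MvPolynomial.eval z (P i) = 0

/-- The `P i` are homogeneous polynomials of degrees `D i`, and at each common zero their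
differentials are linearly independent. -/
def Regular (D : List ℕ) (P : Fin D.length → MvPolynomial (Fin N) ℂ) : Prop :=
  (∀ i, (P i).IsHomogeneous (D.get i)) ∧ ∀ z, z ≠ 0 → Zero P z →
    LinearIndependent ℂ fun i => fun j => MvPolynomial.eval z (MvPolynomial.pderiv j (P i))

/-- `p` is a smooth embedding of `M` in the projective space: injective, with local smooth lifts whose
derivatives are injective modulo the lift. -/
def Embedding (p : M.carrier → PP N) : Prop :=
  Function.Injective p ∧ ∀ x₀, ∃ s, IsLift p x₀ s ∧
    ∀ v : E n, v ≠ 0 → ∀ c : ℂ, der s x₀ v ≠ c • s x₀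

/-- the range of `p` is the set of the common zeros of the `P i` -/
def RangeEq {r : ℕ} (p : M.carrier → PP N) (P : Fin r → MvPolynomial (Fin N) ℂ) : Prop :=
  ∀ z (hz : z ≠ 0), Projectivization.mk ℂ z hz ∈ Set.range p ↔ Zero P z

/-- `p` is a smooth embedding of `M` in the projective space whose image is the set of the common
zeros of homogeneous polynomials `P i` of degrees `D i`; at each common zero the differentials of the
`P i` are linearly independent.  There are `D.length + m` variables, so that the image is a smooth
complete intersection of complex dimension `m - 1` and multidegree `D`. -/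
def CIEmb (m : ℕ) (D : List ℕ) (p : M.carrier → PP (D.length + m)) : Prop :=
  Embedding p ∧ ∃ P : Fin D.length → MvPolynomial (Fin (D.length + m)) ℂ, Regular D P ∧ RangeEq p P

end CI

/-- The canonical class `canon D · x` of the surface of multidegree `D` is divisible by 2 (so that its
intersection form is even). -/
def EvenForm (D : List ℕ) : Prop := ∃ m : ℤ, Pool.Agent.Work.MP_671ba1_h57.canon D = 2 * m

/-- `X` is diffeomorphic to a smooth complete intersection surface of multidegree `D` in the
projective space of dimension `D.length + 2`. -/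
def IsCI (X : Man 4) (D : List ℕ) : Prop := ∃ p : X.carrier → PP (D.length + 3), CIEmb 3 D p

/-- the hermitian form of the Fubini-Study metric (normalized below), in terms of a lift -/
noncomputable def fs {N : ℕ} (s a b : V N) : ℂ :=
  ((star s ⬝ᵥ s) * (star a ⬝ᵥ b) - (star a ⬝ᵥ s) * (star s ⬝ᵥ b)) / (star s ⬝ᵥ s) ^ 2

/-- `M` is symplectomorphic to a smooth complete intersection threefold of multidegree `D` in the
projective space of dimension `D.length + 3`, with the symplectic form `a` times the Fubini-Study
form (normalized: lines have area 1). -/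
def IsCI3 (M : Sym6) (a : ℕ) (D : List ℕ) : Prop :=
  ∃ p : M.man.carrier → PP (D.length + 4), CIEmb 4 D p ∧ ∀ x₀ s, IsLift p x₀ s → ∀ v w : E 6,
    M.form x₀ v w = a / Real.pi * (fs (s x₀) (der s x₀ v) (der s x₀ w)).im

end Pool.Agent.Work.MP_671ba1_h15
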